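import Pool.Agent.W314.BA.Stm

open MeasureTheory Set Filter Topology Real
open scoped ENNReal NNReal

namespace Pool.Agent.W849.BA

open Pool.Agent.W314.BA
open Pool.Agent.W745 (NN FR HM kk dg)

/-! ### Abstract part -/

theorem cont_of_lip {H : Type} [NormedAddCommGroup H] [NormedSpace ℂ H] (B : ℝ → H) (C : ℝ)
    (hC : 0 ≤ C) (h : ∀ x x' : ℝ, 1 < x → 1 < x' →
      ‖((x - 1 : ℝ) : ℂ) • B x - ((x' - 1 : ℝ) : ℂ) • B x'‖ ≤ C * |x - x'|) :
    ContinuousOn B (Ioi 1) := by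
  have h1 : ContinuousOn (fun x : ℝ => ((x - 1 : ℝ) : ℂ) • B x) (Ioi 1) := by
    have h0 : LipschitzOnWith ⟨C, hC⟩ (fun x : ℝ => ((x - 1 : ℝ) : ℂ) • B x) (Ioi 1) := by
      refine LipschitzOnWith.of_dist_le_mul ?_
      intro x hx y hy
      rw [dist_eq_norm, Real.dist_eq]
      exact h x y hx hy
    exact h0.continuousOn
  have h2 : ContinuousOn (fun x : ℝ => (((x - 1)⁻¹ : ℝ) : ℂ)) (Ioi 1) := by
    apply Complex.continuous_ofReal.comp_continuousOn
    refine ContinuousOn.inv₀ (by fun_prop) ?_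
    intro x hx
    have : (1 : ℝ) < x := hx
    linarith
  refine (h2.smul h1).congr ?_
  intro x hx
  have hx1 : (1 : ℝ) < x := hx
  simp only [Pi.smul_apply', smul_smul]
  rw [← Complex.ofReal_mul, inv_mul_cancel₀ (by linarith), Complex.ofReal_one, one_smul]

section abs
variable {H : Type} [NormedAddCommGroup H] [InnerProductSpace ℂ H]

theorem phi_bd {X t : ℝ} (ht : t ∈ Ioc 1 X) : 0 ≤ (X - t) / (t + 1) ∧
    (X - t) / (t + 1) ≤ (X - 1) / 2 := by
  obtain ⟨h1, h2⟩ := ht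
  refine ⟨div_nonneg (by linarith) (by linarith), ?_⟩
  rw [div_le_div_iff₀ (by linarith) (by norm_num)]
  nlinarith

theorem ii (A : ℝ → H →L[ℂ] H) (hA : AvSys A) (g : H)
    (hcg : ContinuousOn (fun x => A x g) (Ioi 1)) (X : ℝ) :
    IntegrableOn (fun t : ℝ => ((X - t) / (t + 1)) • A t g) (Ioc 1 X) := by
  have hfm : IsFiniteMeasure ((volume : Measure ℝ).restrict (Ioc 1 X)) := ⟨by simp⟩
  refine Integrable.of_bound ?_ ((X - 1) / 2 * ‖g‖) ?_
  · have hc1 : ContinuousOn (fun t : ℝ => (X - t) / (t + 1)) (Ioc 1 X) := by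
      refine ContinuousOn.div (by fun_prop) (by fun_prop) ?_
      intro t ht
      have := ht.1
      linarith
    have hc2 : ContinuousOn (fun t => A t g) (Ioc 1 X) := hcg.mono (fun t ht => ht.1)
    exact (hc1.smul hc2).aestronglyMeasurable measurableSet_Ioc
  · filter_upwards [ae_restrict_mem measurableSet_Ioc] with t ht
    rw [norm_smul, Real.norm_eq_abs, abs_of_nonneg (phi_bd ht).1]
    exact mul_le_mul (phi_bd ht).2 (hA.con t ht.1 g) (norm_nonneg _)
      ((phi_bd ht).1.trans (phi_bd ht).2)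

theorem eq_weak [CompleteSpace H] (A : ℝ → H →L[ℂ] H) (hA : AvSys A) (f g : H)
    (hcg : ContinuousOn (fun x => A x g) (Ioi 1)) (X : ℝ) (hX : 1 < X) (J : H)
    (hJ1 : A X f = f - (((X - 1)⁻¹ : ℝ) : ℂ) • J)
    (hJ2 : ∀ w : H, inner ℂ w J =
      ∫ t in Ioc 1 X, inner ℂ w ((((X - t) / (t + 1) : ℝ) : ℂ) • A t g)) :
    A X f = f - (X - 1)⁻¹ • ∫ t in (1 : ℝ)..X, ((X - t) / (t + 1)) • A t g := by
  have hii := ii A hA g hcg X
  have h1 : J = ∫ t in (1 : ℝ)..X, ((X - t) / (t + 1)) • A t g := by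
    refine ext_inner_left ℂ (fun w => ?_)
    rw [hJ2 w, intervalIntegral.integral_of_le hX.le, ← integral_inner hii w]
    refine setIntegral_congr_fun measurableSet_Ioc ?_
    intro t _
    simp only [Complex.coe_smul]
  rw [hJ1, h1, Complex.coe_smul]

theorem lim_of_eq (A : ℝ → H →L[ℂ] H) (hA : AvSys A) (f g : H)
    (heq : ∀ X : ℝ, 1 < X →
      A X f = f - (X - 1)⁻¹ • ∫ t in (1 : ℝ)..X, ((X - t) / (t + 1)) • A t g) :
    Tendsto (fun x => A x f) (𝓝[>] 1) (𝓝 f) := by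
  have hb : ∀ X : ℝ, 1 < X → ‖A X f - f‖ ≤ (X - 1) / 2 * ‖g‖ := by
    intro X hX
    have h1 : A X f - f = -((X - 1)⁻¹ • ∫ t in (1 : ℝ)..X, ((X - t) / (t + 1)) • A t g) := by
      rw [heq X hX]; abel
    rw [h1, norm_neg, norm_smul, Real.norm_eq_abs, abs_of_pos (inv_pos.mpr (by linarith))]
    have h2 : ‖∫ t in (1 : ℝ)..X, ((X - t) / (t + 1)) • A t g‖ ≤ (X - 1) / 2 * ‖g‖ * |X - 1| := by
      refine intervalIntegral.norm_integral_le_of_norm_le_const ?_
      intro t ht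
      rw [uIoc_of_le hX.le] at ht
      rw [norm_smul, Real.norm_eq_abs, abs_of_nonneg (phi_bd ht).1]
      exact mul_le_mul (phi_bd ht).2 (hA.con t ht.1 g) (norm_nonneg _)
        ((phi_bd ht).1.trans (phi_bd ht).2)
    rw [abs_of_pos (by linarith : (0 : ℝ) < X - 1)] at h2
    have h3 : (0 : ℝ) < (X - 1)⁻¹ := inv_pos.mpr (by linarith)
    calc (X - 1)⁻¹ * ‖∫ t in (1 : ℝ)..X, ((X - t) / (t + 1)) • A t g‖
        ≤ (X - 1)⁻¹ * ((X - 1) / 2 * ‖g‖ * (X - 1)) := mul_le_mul_of_nonneg_left h2 h3.le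
      _ = (X - 1) / 2 * ‖g‖ := by
        have : X - 1 ≠ 0 := by linarith
        field_simp
  rw [tendsto_iff_norm_sub_tendsto_zero]
  have h4 : Tendsto (fun x : ℝ => (x - 1) / 2 * ‖g‖) (𝓝[>] 1) (𝓝 0) := by
    have h5 : Continuous (fun x : ℝ => (x - 1) / 2 * ‖g‖) := by fun_prop
    have h6 := h5.tendsto 1
    rw [sub_self, zero_div, zero_mul] at h6
    exact h6.mono_left nhdsWithin_le_nhds
  refine squeeze_zero' (Eventually.of_forall fun x => norm_nonneg _) ?_ h4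
  filter_upwards [self_mem_nhdsWithin] with x hx
  exact hb x hx

end abs

/-! ### Kernels -/

theorem kf_Fs (s : ℕ) (hs : 2 ≤ s) : KF (Fs s) := by
  constructor
  · unfold Fs
    refine ContinuousOn.inv₀ (by fun_prop) ?_
    intro t ht
    have : (1 : ℝ) ≤ t := ht
    positivity
  · refine ⟨1, fun t ht => ?_⟩
    unfold Fs
    rw [abs_of_nonneg (by positivity), one_mul]
    exact inv_anti₀ (by positivity) (pow_le_pow_right₀ (by linarith) hs)

theorem kf_Gs (s : ℕ) (hs : 2 ≤ s) : KF (Gs s) := by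
  obtain ⟨h1, C1, hC1⟩ := kf_Fs s hs
  obtain ⟨h2, C2, hC2⟩ := kf_Fs (s + 1) (by omega)
  constructor
  · unfold Gs
    exact (continuousOn_const.mul h2).sub (continuousOn_const.mul h1)
  · refine ⟨|2 * (s : ℝ) ^ 2| * C2 + |(s : ℝ) * ((s : ℝ) - 1)| * C1, fun t ht => ?_⟩
    unfold Gs
    refine (abs_sub _ _).trans ?_
    rw [abs_mul, abs_mul (s * ((s : ℝ) - 1)), add_mul, mul_assoc, mul_assoc |(s : ℝ) * ((s : ℝ) - 1)|]
    exact add_le_add (mul_le_mul_of_nonneg_left (hC2 t ht) (abs_nonneg _))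
      (mul_le_mul_of_nonneg_left (hC1 t ht) (abs_nonneg _))

theorem int_Fs2 : Integrable (fun g : G => Fs 2 (hh g)) hm := by
  have h1 : Integrable (Fs 2) (hm.map hh) := by
    rw [map_hh]
    have h2 : IntegrableOn (fun t : ℝ => (1 + t ^ 2)⁻¹) (Ici 1) :=
      integrable_inv_one_add_sq.integrableOn
    refine Integrable.mono' h2 ?_ ?_
    · exact (kf_Fs 2 le_rfl).1.aestronglyMeasurable measurableSet_Ici
    · filter_upwards [ae_restrict_mem measurableSet_Ici] with t ht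
      have ht1 : (1 : ℝ) ≤ t := ht
      unfold Fs
      rw [Real.norm_eq_abs, abs_of_nonneg (by positivity)]
      exact inv_anti₀ (by positivity) (by nlinarith)
  exact h1.comp_measurable hh_measurable

section sys
variable {Y : Type} [MeasurableSpace Y] [MulAction G Y] {μ : Measure Y} {c : G → Y → ℤ}

theorem ee_norm (t : ℝ) : ‖ee t‖ = 1 := by
  unfold ee
  rw [Complex.norm_exp]
  simp

theorem ee_cont : Continuous ee := by
  unfold ee
  fun_prop

theorem int_op (hS : Sys μ c) (θ : ℝ) (f : Y → ℂ) (hf : BM f) (F : ℝ → ℝ) (hF : KF F) (y : Y) :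
    Integrable (fun g : G => (F (hh g) : ℂ) * (ee (θ * c g y) * f (g • y))) hm := by
  obtain ⟨hfm, D, hD⟩ := hf
  obtain ⟨hFc, C, hC⟩ := hF
  have hgy : Measurable (fun g : G => (g, y)) := measurable_id.prodMk measurable_const
  have hm1 : Measurable (fun g : G => f (g • y)) := hfm.comp (hS.smul_meas.comp hgy)
  have hm2 : Measurable (fun g : G => (c g y : ℝ)) :=
    (measurable_from_top (f := fun n : ℤ => (n : ℝ))).comp (hS.c_meas.comp hgy)
  have hm3 : Measurable (fun g : G => ee (θ * c g y)) :=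
    ee_cont.measurable.comp (hm2.const_mul θ)
  have hm4 : Continuous (fun g : G => F (hh g)) :=
    hFc.comp_continuous hh_continuous (fun g => one_le_hh g)
  refine Integrable.mono' (int_Fs2.const_mul (C * D)) ?_ ?_
  · exact ((Complex.continuous_ofReal.comp hm4).measurable.mul (hm3.mul hm1)).aestronglyMeasurable
  · refine Eventually.of_forall (fun g => ?_)
    rw [norm_mul, norm_mul, ee_norm, one_mul, Complex.norm_real, Real.norm_eq_abs]
    calc |F (hh g)| * ‖f (g • y)‖ ≤ (C * Fs 2 (hh g)) * D :=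
          mul_le_mul (hC _ (one_le_hh g)) (hD _) (norm_nonneg _)
            ((abs_nonneg _).trans (hC _ (one_le_hh g)))
      _ = C * D * Fs 2 (hh g) := by ring

theorem op_Gs (hS : Sys μ c) (θ : ℝ) (f : Y → ℂ) (hf : BM f) (s : ℕ) (hs : 2 ≤ s) (y : Y) :
    op c θ (Gs s) f y = (2 * (s : ℂ) ^ 2) * op c θ (Fs (s + 1)) f y -
      ((s : ℂ) * ((s : ℂ) - 1)) * op c θ (Fs s) f y := by
  unfold op
  rw [← integral_const_mul, ← integral_const_mul, ← integral_sub]
  · refine integral_congr_ae (Eventually.of_forall fun g => ?_)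
    simp only [Gs]
    push_cast
    ring
  · exact (int_op hS θ f hf _ (kf_Fs (s + 1) (by omega)) y).const_mul _
  · exact (int_op hS θ f hf _ (kf_Fs s hs) y).const_mul _

end sys

theorem lp_bound {Y : Type} [MeasurableSpace Y] (μ : Measure Y) [IsProbabilityMeasure μ]
    (w : Lp ℂ 2 μ) (C : ℝ) (hC : 0 ≤ C) (h : ∀ᵐ y ∂μ, ‖w y‖ ≤ C) : ‖w‖ ≤ C := by
  have h1 := Lp.norm_le_of_ae_bound hC h
  have h2 : measureUnivNNReal μ = 1 := by
    unfold measureUnivNNReal
    rw [measure_univ, ENNReal.toNNReal_one]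
  rw [h2] at h1
  simpa using h1

theorem cont_A (h2 : Basic1Stmt) {Y : Type} [MeasurableSpace Y] [MulAction G Y] (μ : Measure Y)
    (c : G → Y → ℤ) (hS : Sys μ c) (θ : ℝ) (A : ℝ → (Lp ℂ 2 μ →L[ℂ] Lp ℂ 2 μ))
    (hAt : ∀ x : ℝ, 1 < x → ∀ (u : Lp ℂ 2 μ) (f : Y → ℂ), BM f → (u : Y → ℂ) =ᵐ[μ] f →
      ((A x u : Lp ℂ 2 μ) : Y → ℂ) =ᵐ[μ] tw c θ (bm x) f)
    (h : Y → ℂ) (hh : BM h) (w : Lp ℂ 2 μ) (hw : (w : Y → ℂ) =ᵐ[μ] h) :
    ContinuousOn (fun x => A x w) (Ioi 1) := by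
  have hprob := hS.prob
  obtain ⟨C, hC⟩ := hh.2
  have hb := h2 Y μ c hS θ h hh
  refine cont_of_lip _ (max C 0) (le_max_right _ _) ?_
  intro x x' hx hx'
  refine lp_bound μ _ _ (by positivity) ?_
  filter_upwards [Lp.coeFn_sub (((x - 1 : ℝ) : ℂ) • A x w) (((x' - 1 : ℝ) : ℂ) • A x' w),
    Lp.coeFn_smul ((x - 1 : ℝ) : ℂ) (A x w), Lp.coeFn_smul ((x' - 1 : ℝ) : ℂ) (A x' w),
    hAt x hx w h hh hw, hAt x' hx' w h hh hw] with y e1 e2 e3 e4 e5
  rw [e1, Pi.sub_apply, e2, e3, Pi.smul_apply, Pi.smul_apply, e4, e5]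
  have h3 := hb.2.2.2 C x x' hx hx' hC y
  refine le_trans ?_ (mul_le_mul_of_nonneg_right (le_max_left C 0) (abs_nonneg _))
  simpa only [Complex.coe_smul] using h3

/-! ### The pair relation -/

theorem eq_A (h1 : PairFnStmt) (h2 : Basic1Stmt) {Y : Type} [MeasurableSpace Y] [MulAction G Y]
    (μ : Measure Y) (c : G → Y → ℤ) (hS : Sys μ c) (θ : ℝ)
    (A : ℝ → (Lp ℂ 2 μ →L[ℂ] Lp ℂ 2 μ)) (hA : AvSys A)
    (hAt : ∀ x : ℝ, 1 < x → ∀ (u : Lp ℂ 2 μ) (f : Y → ℂ), BM f → (u : Y → ℂ) =ᵐ[μ] f →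
      ((A x u : Lp ℂ 2 μ) : Y → ℂ) =ᵐ[μ] tw c θ (bm x) f)
    (f : Y → ℂ) (hf : BM f) (s : ℕ) (hs : 2 ≤ s) (u v : Lp ℂ 2 μ)
    (hu : (u : Y → ℂ) =ᵐ[μ] op c θ (Fs s) f) (hv : (v : Y → ℂ) =ᵐ[μ] op c θ (Gs s) f)
    (X : ℝ) (hX : 1 < X) :
    A X u = u - (X - 1)⁻¹ • ∫ t in (1 : ℝ)..X, ((X - t) / (t + 1)) • A t v := by
  classical
  have hprob := hS.prob
  have hbF := (h2 Y μ c hS θ f hf).2.1 _ (kf_Fs s hs)
  have hbG := (h2 Y μ c hS θ f hf).2.1 _ (kf_Gs s hs)
  set h : Y → ℂ := op c θ (Gs s) f with hh_def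
  obtain ⟨C0, hC0⟩ := hbG.2
  set C : ℝ := max C0 0 with hCdef
  have hCnn : 0 ≤ C := le_max_right _ _
  have hC : ∀ y, ‖h y‖ ≤ C := fun y => (hC0 y).trans (le_max_left _ _)
  obtain ⟨q1, _, q3, q4⟩ := h2 Y μ c hS θ h hbG
  -- the scaled averages, extended by zero
  set Q : ℝ → Y → ℂ := fun t y => if 1 < t then ((t - 1 : ℝ) : ℂ) * tw c θ (bm t) h y else 0 with hQ
  have hQlip : ∀ y t t', ‖Q t y - Q t' y‖ ≤ C * |t - t'| := by
    intro y t t'
    simp only [hQ]
    by_cases ht : 1 < t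
    · by_cases ht' : 1 < t'
      · rw [if_pos ht, if_pos ht']
        have := q4 C t t' ht ht' hC y
        simpa [Complex.real_smul] using this
      · rw [if_pos ht, if_neg ht', sub_zero, norm_mul, Complex.norm_real, Real.norm_eq_abs]
        have e1 := q3 C t ht hC y
        push Not at ht'
        rw [abs_of_pos (by linarith : 0 < t - 1), abs_of_nonneg (by linarith : 0 ≤ t - t')]
        have e2 : (t - 1) * ‖tw c θ (bm t) h y‖ ≤ (t - 1) * C :=
          mul_le_mul_of_nonneg_left e1 (by linarith)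
        nlinarith
    · by_cases ht' : 1 < t'
      · rw [if_neg ht, if_pos ht', zero_sub, norm_neg, norm_mul, Complex.norm_real,
          Real.norm_eq_abs]
        have e1 := q3 C t' ht' hC y
        push Not at ht
        rw [abs_of_pos (by linarith : 0 < t' - 1), abs_of_nonpos (by linarith : t - t' ≤ 0)]
        have e2 : (t' - 1) * ‖tw c θ (bm t') h y‖ ≤ (t' - 1) * C :=
          mul_le_mul_of_nonneg_left e1 (by linarith)
        nlinarith
      · rw [if_neg ht, if_neg ht', sub_zero, norm_zero]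
        positivity
  have hQc : ∀ y, Continuous (fun t => Q t y) := by
    intro y
    have : LipschitzWith ⟨C, hCnn⟩ (fun t => Q t y) := by
      refine LipschitzWith.of_dist_le_mul ?_
      intro t t'
      rw [dist_eq_norm, Real.dist_eq]
      exact hQlip y t t'
    exact this.continuous
  have hQm : ∀ t, Measurable (Q t) := by
    intro t
    simp only [hQ]
    by_cases ht : 1 < t
    · simp only [if_pos ht]
      exact (q1 t ht).1.const_mul _
    · simp only [if_neg ht]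
      exact measurable_const
  have hQj : Measurable (Function.uncurry Q) :=
    measurable_uncurry_of_continuous_of_measurable hQc hQm
  -- the kernel
  set K : ℝ → Y → ℂ := fun t y =>
    (((Ioc 1 X).indicator (fun t => (X - t) / (t + 1) * (t - 1)⁻¹) t : ℝ) : ℂ) * Q t y with hK
  have hKm : Measurable (Function.uncurry K) := by
    have e1 : Measurable (fun t : ℝ =>
        (((Ioc 1 X).indicator (fun t => (X - t) / (t + 1) * (t - 1)⁻¹) t : ℝ) : ℂ)) := by
      refine Complex.measurable_ofReal.comp (Measurable.indicator ?_ measurableSet_Ioc)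
      fun_prop
    exact (e1.comp measurable_fst).mul hQj
  have hKeq : ∀ t ∈ Ioc 1 X, ∀ y, K t y = (((X - t) / (t + 1) : ℝ) : ℂ) * tw c θ (bm t) h y := by
    intro t ht y
    simp only [hK, hQ]
    rw [indicator_of_mem ht, if_pos ht.1]
    have e1 : (t - 1) ≠ 0 := by have := ht.1; linarith
    have e2 : (((X - t) / (t + 1) * (t - 1)⁻¹ : ℝ) : ℂ) * ((t - 1 : ℝ) : ℂ) =
        (((X - t) / (t + 1) : ℝ) : ℂ) := by
      rw [← Complex.ofReal_mul, mul_assoc, inv_mul_cancel₀ e1, mul_one]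
    rw [← mul_assoc, e2]
  set M : ℝ := (X - 1) / 2 * C with hM
  have hMnn : 0 ≤ M := by
    rw [hM]
    have : 0 ≤ (X - 1) / 2 := by linarith
    positivity
  have hKb : ∀ t y, ‖K t y‖ ≤ M := by
    intro t y
    by_cases ht : t ∈ Ioc 1 X
    · rw [hKeq t ht y, norm_mul, Complex.norm_real, Real.norm_eq_abs,
        abs_of_nonneg (phi_bd ht).1]
      exact mul_le_mul (phi_bd ht).2 (q3 C t ht.1 hC y) (norm_nonneg _)
        ((phi_bd ht).1.trans (phi_bd ht).2)
    · simp only [hK]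
      rw [indicator_of_notMem ht]
      simpa using hMnn
  -- the pointwise integral
  set J0 : Y → ℂ := fun y => ∫ t in Ioc 1 X, K t y with hJ0
  have hJ0m : StronglyMeasurable J0 :=
    StronglyMeasurable.integral_prod_left' (f := Function.uncurry K) hKm.stronglyMeasurable
  have hJ0b : ∀ y, ‖J0 y‖ ≤ M * (X - 1) := by
    intro y
    have e1 := norm_setIntegral_le_of_norm_le_const (μ := volume) (s := Ioc 1 X) (C := M)
      (f := fun t => K t y) (by simp) (fun t _ => hKb t y)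
    refine e1.trans (le_of_eq ?_)
    congr 1
    simp [Measure.real, hX.le]
  have hJL : MemLp J0 2 μ :=
    MemLp.of_bound hJ0m.aestronglyMeasurable (M * (X - 1)) (Eventually.of_forall hJ0b)
  have hcv := cont_A h2 μ c hS θ A hAt h hbG v hv
  refine eq_weak A hA u v hcv X hX (hJL.toLp J0) ?_ ?_
  · refine Lp.ext ?_
    filter_upwards [Lp.coeFn_sub u ((((X - 1)⁻¹ : ℝ) : ℂ) • hJL.toLp J0),
      Lp.coeFn_smul (((X - 1)⁻¹ : ℝ) : ℂ) (hJL.toLp J0), hJL.coeFn_toLp,
      hAt X hX u _ hbF hu, hu] with y e1 e2 e3 e4 e5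
    rw [e1, Pi.sub_apply, e2, Pi.smul_apply, e3, e4, e5, h1 Y μ c hS θ f hf s hs X hX y]
    rw [smul_eq_mul]
    congr 2
    · push_cast; rfl
    · rw [intervalIntegral.integral_of_le hX.le]
      simp only [hJ0]
      refine setIntegral_congr_fun measurableSet_Ioc ?_
      intro t ht
      exact (hKeq t ht y).symm
  · intro w
    rw [L2.inner_def]
    have e1 : ∫ y, inner ℂ ((w : Y → ℂ) y) ((hJL.toLp J0 : Lp ℂ 2 μ) y) ∂μ =
        ∫ y, (∫ t in Ioc (1 : ℝ) X, inner ℂ ((w : Y → ℂ) y) (K t y)) ∂μ := by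
      refine integral_congr_ae ?_
      filter_upwards [hJL.coeFn_toLp] with y e2
      rw [e2]
      simp only [hJ0]
      refine (integral_inner ?_ _).symm
      refine Measure.integrableOn_of_bounded (M := M) (by simp) ?_ ?_
      · exact ((hKm.comp (measurable_id.prodMk measurable_const))).aestronglyMeasurable
      · exact Eventually.of_forall (fun t => hKb t y)
    rw [e1]
    have e3 : Integrable (Function.uncurry (fun (t : ℝ) (y : Y) =>
        inner ℂ ((w : Y → ℂ) y) (K t y))) ((volume.restrict (Ioc 1 X)).prod μ) := by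
      have e4 : Integrable (fun y => ‖(w : Y → ℂ) y‖ * M) μ :=
        (((Lp.memLp w).integrable (by norm_num)).norm).mul_const M
      have hfm : IsFiniteMeasure (volume.restrict (Ioc 1 X)) := ⟨by simp⟩
      have e5 : Integrable (fun p : ℝ × Y => ‖(w : Y → ℂ) p.2‖ * M)
          ((volume.restrict (Ioc 1 X)).prod μ) := e4.comp_snd _
      refine e5.mono' ?_ ?_
      · refine StronglyMeasurable.aestronglyMeasurable ?_
        refine StronglyMeasurable.inner ?_ hKm.stronglyMeasurable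
        exact (Lp.stronglyMeasurable w).comp_measurable measurable_snd
      · refine Eventually.of_forall (fun p => ?_)
        refine (norm_inner_le_norm _ _).trans ?_
        exact mul_le_mul_of_nonneg_left (hKb _ _) (norm_nonneg _)
    rw [← integral_integral_swap e3]
    refine setIntegral_congr_fun measurableSet_Ioc ?_
    intro t ht
    simp only
    rw [L2.inner_def]
    refine integral_congr_ae ?_
    filter_upwards [Lp.coeFn_smul (((X - t) / (t + 1) : ℝ) : ℂ) (A t v),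
      hAt t ht.1 v _ hbG hv] with y e6 e7
    rw [e6, Pi.smul_apply, e7, hKeq t ht y, smul_eq_mul]

theorem main (h1 : PairFnStmt) (h2 : Basic1Stmt) : PairL2Stmt := by
  intro Y _ _ μ c hS θ A hA hAt f hf s hs u v hu hv
  have hprob := hS.prob
  have hbF := (h2 Y μ c hS θ f hf).2.1 _ (kf_Fs s hs)
  have hbF' := (h2 Y μ c hS θ f hf).2.1 _ (kf_Fs (s + 1) (by omega))
  have hbG := (h2 Y μ c hS θ f hf).2.1 _ (kf_Gs s hs)
  have hbG' := (h2 Y μ c hS θ f hf).2.1 _ (kf_Gs (s + 1) (by omega))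
  have hmem : ∀ φ : Y → ℂ, BM φ → MemLp φ 2 μ := by
    intro φ hφ
    obtain ⟨C, hC⟩ := hφ.2
    exact MemLp.of_bound hφ.1.aestronglyMeasurable C (Eventually.of_forall hC)
  -- the classes for `s + 1`
  set u' : Lp ℂ 2 μ := (hmem _ hbF').toLp _ with hu'
  set v' : Lp ℂ 2 μ := (hmem _ hbG').toLp _ with hv'
  have hu'e : (u' : Y → ℂ) =ᵐ[μ] op c θ (Fs (s + 1)) f := (hmem _ hbF').coeFn_toLp
  have hv'e : (v' : Y → ℂ) =ᵐ[μ] op c θ (Gs (s + 1)) f := (hmem _ hbG').coeFn_toLp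
  have eq1 := eq_A h1 h2 μ c hS θ A hA hAt f hf s hs u v hu hv
  have eq2 := eq_A h1 h2 μ c hS θ A hA hAt f hf (s + 1) (by omega) u' v' hu'e hv'e
  have l1 := lim_of_eq A hA u v eq1
  have l2 := lim_of_eq A hA u' v' eq2
  have hvu : v = (2 * (s : ℂ) ^ 2) • u' - ((s : ℂ) * ((s : ℂ) - 1)) • u := by
    refine Lp.ext ?_
    filter_upwards [Lp.coeFn_sub ((2 * (s : ℂ) ^ 2) • u') (((s : ℂ) * ((s : ℂ) - 1)) • u),
      Lp.coeFn_smul (2 * (s : ℂ) ^ 2) u', Lp.coeFn_smul ((s : ℂ) * ((s : ℂ) - 1)) u,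
      hu, hv, hu'e] with y e1 e2 e3 e4 e5 e6
    rw [e1, Pi.sub_apply, e2, e3, Pi.smul_apply, Pi.smul_apply, e4, e5, e6,
      op_Gs hS θ f hf s hs y]
    rfl
  refine ⟨cont_A h2 μ c hS θ A hAt _ hbF u hu, cont_A h2 μ c hS θ A hAt _ hbG v hv, ?_, eq1⟩
  have l3 : Tendsto (fun x => (2 * (s : ℂ) ^ 2) • A x u' - ((s : ℂ) * ((s : ℂ) - 1)) • A x u)
      (𝓝[>] 1) (𝓝 ((2 * (s : ℂ) ^ 2) • u' - ((s : ℂ) * ((s : ℂ) - 1)) • u)) :=
    (l2.const_smul _).sub (l1.const_smul _)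
  rw [← hvu] at l3
  refine l3.congr (fun x => ?_)
  conv_rhs => rw [hvu]
  rw [map_sub, map_smul, map_smul]

end Pool.Agent.W849.BA
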